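import Pool.Agent.H74.CT.Fin

set_option autoImplicit false

/-!
# MP_b747bb_pr: thresholds for `k` and for `k + 1` colours
-/

namespace Pool.Agent.Results.MP_b747bb_pr.ConsecutiveThresholds

open Filter Topology

/-- The probability that the random graph `G_{n,M}` (uniform among the graphs on `Fin n` with exactly `M` edges) is
`k`-colourable. -/
noncomputable def colProb (k n M : ℕ) : ℝ :=
  (Nat.card {G : SimpleGraph (Fin n) // G.edgeSet.ncard = M ∧ G.Colorable k} : ℝ) /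
    (Nat.card {G : SimpleGraph (Fin n) // G.edgeSet.ncard = M} : ℝ)

/-- Almost surely `χ(G_{n,M=cn}) ≤ k`. -/
def AlmostSurelyColorable (k : ℕ) (c : ℝ) : Prop :=
  Tendsto (fun n : ℕ => colProb k n ⌊c * n⌋₊) atTop (𝓝 1)

/-- Almost surely `χ(G_{n,M=cn}) > k`. -/
def AlmostSurelyNotColorable (k : ℕ) (c : ℝ) : Prop :=
  Tendsto (fun n : ℕ => colProb k n ⌊c * n⌋₊) atTop (𝓝 0)

/-- `x` is the `k`-colourability threshold. -/
def IsThreshold (k : ℕ) (x : ℝ) : Prop :=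
  0 ≤ x ∧ ∀ ε : ℝ, 0 < ε → (0 < x - ε → AlmostSurelyColorable k (x - ε)) ∧ AlmostSurelyNotColorable k (x + ε)

/-- For `b, c > 0` with `c - log (1 + 2c) / 2 < b`:
(1) there is `0 < α < 1` such that, for every `ε > 0` and all large `n`, with `m = n - ⌊αn⌋`,
`P(G_{m,⌊bm⌋} is k-colourable) ≤ P(G_{n,⌊cn⌋} is (k+1)-colourable) + ε`;
(2) if a.s. `χ(G_{n,M=bn}) ≤ k`, then a.s. `χ(G_{n,M=cn}) ≤ k + 1`;
(3) if a.s. `χ(G_{n,M=cn}) > k + 1`, then a.s. `χ(G_{n,M=bn}) > k`.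
(4) If the thresholds `x` for `k` and `y` for `k + 1` colours exist, then `y ≥ x + log (1 + 2y) / 2`. -/
theorem result :
    (∀ (k : ℕ) (b c : ℝ), 0 < b → 0 < c → c - Real.log (1 + 2 * c) / 2 < b →
      (∃ α : ℝ, 0 < α ∧ α < 1 ∧ ∀ ε : ℝ, 0 < ε → ∀ᶠ n : ℕ in atTop,
        colProb k (n - ⌊α * n⌋₊) ⌊b * ((n - ⌊α * n⌋₊ : ℕ) : ℝ)⌋₊ ≤ colProb (k + 1) n ⌊c * n⌋₊ + ε) ∧
      (AlmostSurelyColorable k b → AlmostSurelyColorable (k + 1) c) ∧
      (AlmostSurelyNotColorable (k + 1) c → AlmostSurelyNotColorable k b)) ∧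
    (∀ (k : ℕ) (x y : ℝ), IsThreshold k x → IsThreshold (k + 1) y → x + Real.log (1 + 2 * y) / 2 ≤ y) := by
  have hlim := Pool.Agent.H74.CT.limAll
  refine ⟨fun k b c hb hc h => ⟨?_, fun H => Pool.Agent.H74.CT.Cor.as_step hlim k b c hb hc h H,
    fun H => Pool.Agent.H74.CT.Cor.an_step hlim k b c hb hc h H⟩, fun k x y hx hy => ?_⟩
  · obtain ⟨α, h0, h1, hε⟩ := hlim k b c hb hc h
    refine ⟨α, h0, h1, fun ε hpos => ?_⟩
    obtain ⟨n₀, hn₀⟩ := hε ε hpos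
    exact eventually_atTop.2 ⟨n₀, hn₀⟩
  · refine Pool.Agent.H74.CT.Cor.thr hlim k x y hx.1 hy.1 (fun c h0 hcx => ?_) (fun c hyc => ?_)
    · have := (hx.2 (x - c) (by linarith)).1 (by linarith)
      rw [sub_sub_cancel] at this
      exact this
    · have := (hy.2 (c - y) (by linarith)).2
      rw [add_sub_cancel] at this
      exact this

end Pool.Agent.Results.MP_b747bb_pr.ConsecutiveThresholds
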